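import Pool.Agent.U797.NL.Spec2
import Pool.Agent.Helper133.Brouwer

/-!
# Project NL, part 2, package BRW (helper571): weights of the centres from Brouwer's theorem
-/

set_option autoImplicit false

namespace Pool.Agent.U571.NL

open Finset
open scoped Classical

theorem t_BRW : Pool.Agent.U797.NL.S_BRW := by
  intro T Y _ _ _ E R B β A hβ hB hBs hA
  obtain ⟨r, hrdef⟩ : ∃ r : (T → ℝ) → Y → ℝ, r = fun x y =>
    ∑ c' ∈ univ.filter (fun c' => y ∈ R c'), x c' := ⟨_, rfl⟩
  obtain ⟨s, hsdef⟩ : ∃ s : (T → ℝ) → Y → ℝ, s = fun x y =>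
    ∑ c' ∈ univ.filter (fun c' => y ∈ E c'), x c' := ⟨_, rfl⟩
  obtain ⟨g, hgdef⟩ : ∃ g : (T → ℝ) → T → ℝ, g = fun x c =>
    x c * ∑ y ∈ E c, r x y / s x y + β * ∑ c' ∈ B c, x c' := ⟨_, rfl⟩
  have hs : ∀ x : T → ℝ, (∀ c, 0 < x c) → ∀ c, ∀ y ∈ E c, 0 < s x y := by
    intro x hx c y hy
    rw [hsdef]
    exact Finset.sum_pos (fun c' _ => hx c') ⟨c, by simp [hy]⟩
  have hr : ∀ x : T → ℝ, (∀ c, 0 < x c) → ∀ y, 0 ≤ r x y := by
    intro x hx y
    rw [hrdef]
    exact Finset.sum_nonneg fun c' _ => (hx c').le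
  have hs0 : ∀ x : T → ℝ, (∀ c, 0 < x c) → ∀ y, 0 ≤ s x y := by
    intro x hx y
    rw [hsdef]
    exact Finset.sum_nonneg fun c' _ => (hx c').le
  have hg : ∀ x : T → ℝ, (∀ c, 0 < x c) → ∀ c, 0 < g x c := by
    intro x hx c
    have h1 : 0 ≤ ∑ y ∈ E c, r x y / s x y :=
      Finset.sum_nonneg fun y _ => div_nonneg (hr x hx y) (hs0 x hx y)
    have h2 : x c ≤ ∑ c' ∈ B c, x c' := Finset.single_le_sum (f := x) (fun c' _ => (hx c').le) (hB c)
    have h3 : 0 < β * ∑ c' ∈ B c, x c' := mul_pos hβ ((hx c).trans_le h2)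
    have h4 : 0 ≤ x c * ∑ y ∈ E c, r x y / s x y := mul_nonneg (hx c).le h1
    rw [hgdef]
    exact add_pos_of_nonneg_of_pos h4 h3
  have hsum : ∀ x : T → ℝ, (∀ c, 0 < x c) → ∑ c, g x c ≤ A * ∑ c, x c := by
    intro x hx
    have h1 : ∑ c, x c * ∑ y ∈ E c, r x y / s x y ≤ ∑ c, x c * (R c).card := by
      calc ∑ c, x c * ∑ y ∈ E c, r x y / s x y
          = ∑ c, ∑ y, if y ∈ E c then x c * (r x y / s x y) else 0 := by
            apply Finset.sum_congr rfl
            intro c _
            rw [← Finset.sum_filter, Finset.filter_univ_mem, Finset.mul_sum]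
        _ = ∑ y, ∑ c, if y ∈ E c then x c * (r x y / s x y) else 0 := Finset.sum_comm
        _ = ∑ y, s x y * (r x y / s x y) := by
            apply Finset.sum_congr rfl
            intro y _
            rw [← Finset.sum_filter, ← Finset.sum_mul, hsdef]
        _ ≤ ∑ y, r x y := by
            apply Finset.sum_le_sum
            intro y _
            by_cases h : s x y = 0
            · rw [h, zero_mul]
              exact hr x hx y
            · rw [mul_div_cancel₀ _ h]
        _ = ∑ y, ∑ c, if y ∈ R c then x c else 0 := by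
            apply Finset.sum_congr rfl
            intro y _
            rw [← Finset.sum_filter, hrdef]
        _ = ∑ c, ∑ y, if y ∈ R c then x c else 0 := Finset.sum_comm
        _ = ∑ c, x c * (R c).card := by
            apply Finset.sum_congr rfl
            intro c _
            rw [← Finset.sum_filter, Finset.filter_univ_mem, Finset.sum_const, nsmul_eq_mul,
              mul_comm]
    have h2 : ∑ c, ∑ c' ∈ B c, x c' = ∑ c, x c * (B c).card := by
      calc ∑ c, ∑ c' ∈ B c, x c' = ∑ c, ∑ c', if c' ∈ B c then x c' else 0 := by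
            apply Finset.sum_congr rfl
            intro c _
            rw [← Finset.sum_filter, Finset.filter_univ_mem]
        _ = ∑ c', ∑ c, if c' ∈ B c then x c' else 0 := Finset.sum_comm
        _ = ∑ c', ∑ c, if c ∈ B c' then x c' else 0 := by
            apply Finset.sum_congr rfl
            intro c' _
            apply Finset.sum_congr rfl
            intro c _
            have h3 : c' ∈ B c ↔ c ∈ B c' := ⟨hBs c c', hBs c' c⟩
            simp only [h3]
        _ = ∑ c, x c * (B c).card := by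
            apply Finset.sum_congr rfl
            intro c _
            rw [← Finset.sum_filter, Finset.filter_univ_mem, Finset.sum_const, nsmul_eq_mul,
              mul_comm]
    have h3 : ∑ c, g x c = ∑ c, x c * ∑ y ∈ E c, r x y / s x y + β * ∑ c, ∑ c' ∈ B c, x c' := by
      rw [hgdef, Finset.sum_add_distrib, ← Finset.mul_sum]
    rw [h3, h2]
    calc ∑ c, x c * ∑ y ∈ E c, r x y / s x y + β * ∑ c, x c * ((B c).card : ℝ)
        ≤ ∑ c, x c * (R c).card + β * ∑ c, x c * ((B c).card : ℝ) := by linarith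
      _ = ∑ c, x c * ((R c).card + β * (B c).card) := by
          rw [Finset.mul_sum, ← Finset.sum_add_distrib]
          apply Finset.sum_congr rfl
          intro c _
          ring
      _ ≤ ∑ c, x c * A := Finset.sum_le_sum fun c _ => mul_le_mul_of_nonneg_left (hA c) (hx c).le
      _ = A * ∑ c, x c := by rw [← Finset.sum_mul, mul_comm]
  -- the map
  obtain ⟨δ, hδ, hδc⟩ : ∃ δ : ℝ, 0 < δ ∧ ∑ _c : T, δ = 1 := by
    refine ⟨1 / Fintype.card T, by positivity, ?_⟩
    rw [Finset.sum_const, Finset.card_univ, nsmul_eq_mul]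
    have : (Fintype.card T : ℝ) ≠ 0 := by
      exact_mod_cast Fintype.card_ne_zero
    field_simp
  obtain ⟨u, hu⟩ : ∃ u : (T → ℝ) → T → ℝ, u = fun x c => |x c| + δ := ⟨_, rfl⟩
  have hupos : ∀ x c, 0 < u x c := by
    intro x c
    rw [hu]
    have := abs_nonneg (x c)
    show 0 < |x c| + δ
    linarith
  have hucont : ∀ c, Continuous fun x => u x c := by
    intro c
    rw [hu]
    fun_prop
  have hrcont : ∀ y, Continuous fun x => r (u x) y := by
    intro y
    rw [hrdef]
    exact continuous_finsetSum _ fun c _ => hucont c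
  have hscont : ∀ y, Continuous fun x => s (u x) y := by
    intro y
    rw [hsdef]
    exact continuous_finsetSum _ fun c _ => hucont c
  have hgcont : ∀ c, Continuous fun x => g (u x) c := by
    intro c
    rw [hgdef]
    refine ((hucont c).mul (continuous_finsetSum _ fun y hy => ?_)).add
      (continuous_const.mul (continuous_finsetSum _ fun c _ => hucont c))
    exact (hrcont y).div (hscont y) fun x => (hs (u x) (hupos x) c y hy).ne'
  have hGpos : ∀ x, 0 < ∑ c, g (u x) c := fun x =>
    Finset.sum_pos (fun c _ => hg (u x) (hupos x) c) Finset.univ_nonempty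
  obtain ⟨x, hx⟩ := Pool.Agent.Helper133.Brouwer.brouwer
    (fun (x : T → ℝ) (c : T) => g (u x) c / ∑ c, g (u x) c)
    (continuous_pi fun c => (hgcont c).div (continuous_finsetSum _ fun c _ => hgcont c)
      fun x => (hGpos x).ne') 1 (by
      intro x
      rw [pi_norm_le_iff_of_nonneg zero_le_one]
      intro c
      rw [Real.norm_eq_abs, abs_of_pos (div_pos (hg (u x) (hupos x) c) (hGpos x)),
        div_le_one (hGpos x)]
      exact Finset.single_le_sum (f := fun c => g (u x) c)
        (fun c _ => (hg (u x) (hupos x) c).le) (Finset.mem_univ c))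
  have hxc : ∀ c, g (u x) c = (∑ c, g (u x) c) * x c := by
    intro c
    have h1 : g (u x) c / ∑ c, g (u x) c = x c := congrFun hx c
    rw [← h1, mul_div_cancel₀ _ (hGpos x).ne']
  have hxpos : ∀ c, 0 < x c := by
    intro c
    have h1 : g (u x) c / ∑ c, g (u x) c = x c := congrFun hx c
    rw [← h1]
    exact div_pos (hg (u x) (hupos x) c) (hGpos x)
  have hx1 : ∑ c, x c = 1 := by
    have h1 : ∑ c, g (u x) c = (∑ c, g (u x) c) * ∑ c, x c := by
      conv_lhs => rw [Finset.sum_congr rfl fun c _ => hxc c]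
      rw [← Finset.mul_sum]
    have h2 := (hGpos x).ne'
    exact (mul_eq_left₀ h2).1 h1.symm
  have hux : ∀ c, u x c = x c + δ := by
    intro c
    rw [hu]
    show |x c| + δ = _
    rw [abs_of_pos (hxpos c)]
  have hu2 : ∑ c, u x c = 2 := by
    rw [Finset.sum_congr rfl fun c _ => hux c, Finset.sum_add_distrib, hx1, hδc]
    norm_num
  have hσ : ∑ c, g (u x) c ≤ 2 * A := by
    have := hsum (u x) (hupos x)
    rw [hu2] at this
    linarith
  have hA0 : 0 ≤ 2 * A := (hGpos x).le.trans hσ
  refine ⟨u x, hupos x, fun c => ?_⟩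
  have h1 : g (u x) c ≤ 2 * A * u x c := by
    rw [hxc c]
    calc (∑ c, g (u x) c) * x c ≤ 2 * A * x c := mul_le_mul_of_nonneg_right hσ (hxpos c).le
      _ ≤ 2 * A * u x c := mul_le_mul_of_nonneg_left (by rw [hux]; linarith) hA0
  have h2 : g (u x) c = u x c * (∑ y ∈ E c, r (u x) y / s (u x) y +
      β * (∑ c' ∈ B c, u x c') / u x c) := by
    have h3 := (hupos x c).ne'
    rw [hgdef, mul_add, mul_div_cancel₀ _ h3]
  rw [h2, mul_comm (2 * A)] at h1
  have h3 := le_of_mul_le_mul_left h1 (hupos x c)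
  rw [hrdef, hsdef] at h3
  exact h3

end Pool.Agent.U571.NL
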